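import Pool.Agent.V1112.HV.Stm

/-!
Project VO (helper345), CRE: vacuum properties and Goddard uniqueness.
-/

set_option autoImplicit false

namespace Pool.Agent.V1112.HVW179

open Pool.Agent.V1112.HV

theorem bc_zero (r : ℤ) : bc r 0 = 1 := by
  unfold bc
  rw [Ring.choose_zero_right]
  simp

section

variable {V : Type} [AddCommGroup V] [Module ℚ V]

/-- the right hand side of the Borcherds identity on the vacuum, at `q ≥ 0` -/
theorem RR_nonneg {o : V} {a b : ℤ → Module.End ℚ V} (r p q : ℤ) (ha : ∀ i : ℕ, a (p + i) o = 0)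
    (hb : Cre o b) (hq : 0 ≤ q) : RR a b r p q o = 0 := by
  unfold RR
  have h : ∀ i : ℕ, trm a b r p q o i = 0 := by
    intro i
    unfold trm
    rw [ha i, hb (q + i) (by omega), map_zero, map_zero, smul_zero, sub_zero, smul_zero]
  simp only [h, finsum_zero]

/-- the right hand side of the Borcherds identity on the vacuum, at `q = -1` -/
theorem RR_neg_one {o : V} {a b : ℤ → Module.End ℚ V} (r p : ℤ) (ha : ∀ i : ℕ, a (p + i) o = 0)
    (hb : Cre o b) : RR a b r p (-1) o = a (p + r) (b (-1) o) := by
  unfold RR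
  rw [finsum_eq_single _ 0]
  · unfold trm
    rw [ha 0, map_zero, smul_zero, sub_zero, pow_zero, one_mul, bc_zero, one_smul]
    simp
  · intro i hi
    unfold trm
    rw [ha i, hb (-1 + i) (by omega), map_zero, map_zero, smul_zero, sub_zero, smul_zero]

end

theorem cre : S_CRE := by
  intro V _ _ o a b c _ _ hao hbo n hc
  have ha : ∀ i : ℕ, a (0 + i) o = 0 := fun i => hao _ (by omega)
  refine ⟨fun m hm => ?_, ?_⟩
  · rw [hc m o]
    exact RR_nonneg n 0 m ha hbo hm
  · rw [hc (-1) o, RR_neg_one n 0 ha hbo, zero_add]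

theorem god : S_GOD := by
  intro V _ _ T o a b _ _ hloc hao hbo hcov hT h1 n
  have hneg : ∀ k : ℕ, a (-(k : ℤ) - 1) o = 0 := by
    intro k
    induction k with
    | zero =>
      have : -((0 : ℕ) : ℤ) - 1 = -1 := by norm_num
      rw [this]
      exact h1
    | succ k ih =>
      have h := hcov (-(k : ℤ) - 1) o
      rw [ih, hT, map_zero, map_zero, sub_zero] at h
      have e : -(k : ℤ) - 1 - 1 = -((k + 1 : ℕ) : ℤ) - 1 := by push_cast; ring
      rw [e] at h
      rcases smul_eq_zero.1 h.symm with h2 | h2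
      · exfalso
        have h3 : ((k : ℚ) + 1) = 0 := by
          push_cast at h2
          linear_combination h2
        have h4 : ((k + 1 : ℕ) : ℚ) = 0 := by push_cast; exact h3
        exact absurd (Nat.cast_eq_zero.1 h4) (Nat.succ_ne_zero k)
      · exact h2
  have hall : ∀ m : ℤ, a m o = 0 := by
    intro m
    by_cases hm : 0 ≤ m
    · exact hao m hm
    · have := hneg (-m - 1).toNat
      have e : -(((-m - 1).toNat : ℕ) : ℤ) - 1 = m := by omega
      rwa [e] at this
  obtain ⟨N, hN⟩ := hloc
  have h := hN (n - N) (-1) o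
  rw [RR_neg_one (N : ℤ) (n - N) (fun i => hall _) hbo, sub_add_cancel] at h
  exact h

end Pool.Agent.V1112.HVW179
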