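import Pool.Agent.V1112.HV.Stm

/-!
# Project VO (helper345): finiteness and the Pascal identity
-/

set_option autoImplicit false

namespace Pool.Agent.V1112.HVW688

open Pool.Agent.V1112.HV

section

variable {V : Type} [AddCommGroup V] [Module ℚ V]

theorem trm_zero {a b : ℤ → Module.End ℚ V} {v : V} {Na Nb : ℤ} (ha : ∀ n, Na ≤ n → a n v = 0)
    (hb : ∀ n, Nb ≤ n → b n v = 0) (r p q : ℤ) (i : ℕ) (h1 : Na ≤ p + i) (h2 : Nb ≤ q + i) :
    trm a b r p q v i = 0 := by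
  unfold trm
  rw [ha _ h1, hb _ h2, map_zero, map_zero, smul_zero, sub_zero, smul_zero]

/-- the sum as a finite sum -/
theorem RR_eq_sum {a b : ℤ → Module.End ℚ V} {v : V} {Na Nb : ℤ} (ha : ∀ n, Na ≤ n → a n v = 0)
    (hb : ∀ n, Nb ≤ n → b n v = 0) (r p q : ℤ) (K : ℕ) (h1 : Na ≤ p + K) (h2 : Nb ≤ q + K) :
    RR a b r p q v = ∑ i ∈ Finset.range K, trm a b r p q v i := by
  unfold RR
  apply finsum_eq_sum_of_support_subset
  intro i hi
  rw [Function.mem_support] at hi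
  rw [Finset.coe_range, Set.mem_Iio]
  by_contra hc
  apply hi
  apply trm_zero ha hb
  · push Not at hc
    have : (K : ℤ) ≤ i := by exact_mod_cast hc
    linarith
  · push Not at hc
    have : (K : ℤ) ≤ i := by exact_mod_cast hc
    linarith

theorem bc_zero (r : ℤ) : bc r 0 = 1 := by
  unfold bc
  rw [Ring.choose_zero_right]
  simp

theorem bc_succ (r : ℤ) (i : ℕ) : bc (r + 1) (i + 1) = bc r i + bc r (i + 1) := by
  unfold bc
  rw [Ring.choose_succ_succ]
  push_cast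
  ring

theorem pascal_sum (r : ℤ) (D : ℕ → V) (K : ℕ) :
    ∑ i ∈ Finset.range (K + 1), ((-1 : ℚ) ^ i * bc r i) • (D i - D (i + 1)) =
      ∑ i ∈ Finset.range (K + 1), ((-1 : ℚ) ^ i * bc (r + 1) i) • D i -
        ((-1 : ℚ) ^ K * bc r K) • D (K + 1) := by
  induction K with
  | zero => simp [bc_zero]
  | succ K ih =>
    rw [Finset.sum_range_succ, ih, Finset.sum_range_succ _ (K + 1), bc_succ]
    module

end

theorem fin : S_FIN := by
  intro V _ _ a b ha hb r p q v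
  obtain ⟨Na, hNa⟩ := ha v
  obtain ⟨Nb, hNb⟩ := hb v
  apply (Finset.finite_toSet (Finset.range ((Na - p).toNat + (Nb - q).toNat))).subset
  intro i hi
  rw [Function.mem_support] at hi
  rw [Finset.coe_range, Set.mem_Iio]
  by_contra hc
  apply hi
  apply trm_zero hNa hNb <;> omega

theorem pas : S_PAS := by
  intro V _ _ a b ha hb r p q v
  obtain ⟨Na, hNa⟩ := ha v
  obtain ⟨Nb, hNb⟩ := hb v
  obtain ⟨K, hK⟩ : ∃ K : ℕ, K = (Na - p).toNat + (Nb - q).toNat := ⟨_, rfl⟩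
  rw [RR_eq_sum hNa hNb r (p + 1) q (K + 1) (by omega) (by omega),
    RR_eq_sum hNa hNb r p (q + 1) (K + 1) (by omega) (by omega),
    RR_eq_sum hNa hNb (r + 1) p q (K + 1) (by omega) (by omega), ← Finset.sum_sub_distrib]
  obtain ⟨D, hD⟩ : ∃ D : ℕ → V, D = fun i : ℕ => a (p + r + 1 - i) (b (q + i) v) +
    (-1 : ℚ) ^ r • b (q + r + 1 - i) (a (p + i) v) := ⟨_, rfl⟩
  have h1 : ∀ i : ℕ, trm a b r (p + 1) q v i - trm a b r p (q + 1) v i =
      ((-1 : ℚ) ^ i * bc r i) • (D i - D (i + 1)) := by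
    intro i
    rw [hD]
    unfold trm
    have e1 : p + 1 + r - i = p + r + 1 - (i : ℤ) := by ring
    have e2 : p + 1 + (i : ℤ) = p + ((i + 1 : ℕ) : ℤ) := by push_cast; ring
    have e3 : q + r - (i : ℤ) = q + r + 1 - ((i + 1 : ℕ) : ℤ) := by push_cast; ring
    have e4 : p + r - (i : ℤ) = p + r + 1 - ((i + 1 : ℕ) : ℤ) := by push_cast; ring
    have e5 : q + 1 + (i : ℤ) = q + ((i + 1 : ℕ) : ℤ) := by push_cast; ring
    have e6 : q + 1 + r - i = q + r + 1 - (i : ℤ) := by ring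
    rw [e1, e2, e3, e4, e5, e6]
    module
  have h2 : ∀ i : ℕ, trm a b (r + 1) p q v i = ((-1 : ℚ) ^ i * bc (r + 1) i) • D i := by
    intro i
    rw [hD]
    unfold trm
    have e1 : p + (r + 1) - i = p + r + 1 - (i : ℤ) := by ring
    have e2 : q + (r + 1) - i = q + r + 1 - (i : ℤ) := by ring
    have e3 : (-1 : ℚ) ^ (r + 1) = -(-1 : ℚ) ^ r := by
      rw [zpow_add₀ (by norm_num), zpow_one]; ring
    rw [e1, e2, e3]
    module
  rw [Finset.sum_congr rfl (fun i _ => h1 i), Finset.sum_congr rfl (fun i _ => h2 i), pascal_sum]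
  have h3 : D (K + 1) = 0 := by
    rw [hD]
    show a (p + r + 1 - ((K + 1 : ℕ) : ℤ)) (b (q + ((K + 1 : ℕ) : ℤ)) v) +
      (-1 : ℚ) ^ r • b (q + r + 1 - ((K + 1 : ℕ) : ℤ)) (a (p + ((K + 1 : ℕ) : ℤ)) v) = 0
    rw [hNa (p + ((K + 1 : ℕ) : ℤ)) (by omega), hNb (q + ((K + 1 : ℕ) : ℤ)) (by omega),
      map_zero, map_zero, smul_zero, add_zero]
  rw [h3, smul_zero, sub_zero]

end Pool.Agent.V1112.HVW688
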