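import Pool.Agent.V1112.HV.Defs

/-!
Statements of the parts of project VO.
-/

namespace Pool.Agent.V1112.HV

open MvPolynomial

universe u

/-! ### General theory of fields -/

/-- The space of fields: families `a n` of operators with `a n v = 0` for large `n`. -/
def FL (V : Type) [AddCommGroup V] [Module ℚ V] : Submodule ℚ (ℤ → Module.End ℚ V) where
  carrier := {a | ∀ v : V, ∃ N : ℤ, ∀ n, N ≤ n → a n v = 0}
  add_mem' := by
    intro a b ha hb v
    obtain ⟨N, hN⟩ := ha v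
    obtain ⟨N', hN'⟩ := hb v
    refine ⟨max N N', fun n hn => ?_⟩
    rw [Pi.add_apply, LinearMap.add_apply, hN n (le_trans (le_max_left _ _) hn),
      hN' n (le_trans (le_max_right _ _) hn), add_zero]
  zero_mem' := fun v => ⟨0, fun n _ => rfl⟩
  smul_mem' := by
    intro c a ha v
    obtain ⟨N, hN⟩ := ha v
    refine ⟨N, fun n hn => ?_⟩
    rw [Pi.smul_apply, LinearMap.smul_apply, hN n hn, smul_zero]

section fields

variable {V : Type} [AddCommGroup V] [Module ℚ V]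

/-- The `i`-th term of the right hand side of the Borcherds identity. -/
noncomputable def trm (a b : ℤ → Module.End ℚ V) (r p q : ℤ) (v : V) (i : ℕ) : V :=
  ((-1 : ℚ) ^ i * bc r i) •
    (a (p + r - i) (b (q + i) v) - (-1 : ℚ) ^ r • b (q + r - i) (a (p + i) v))

/-- The right hand side of the Borcherds identity. -/
noncomputable def RR (a b : ℤ → Module.End ℚ V) (r p q : ℤ) (v : V) : V :=
  ∑ᶠ i : ℕ, trm a b r p q v i

/-- Locality. -/
def Loc (a b : ℤ → Module.End ℚ V) : Prop :=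
  ∃ N : ℕ, ∀ (p q : ℤ) (v : V), RR a b (N : ℤ) p q v = 0

/-- `c` is the `n`-th product of `a` and `b`. -/
def IsPrd (n : ℤ) (a b c : ℤ → Module.End ℚ V) : Prop :=
  ∀ (m : ℤ) (v : V), c m v = RR a b n 0 m v

/-- Translation covariance. -/
def Cov (T : Module.End ℚ V) (a : ℤ → Module.End ℚ V) : Prop :=
  ∀ (n : ℤ) (v : V), T (a n v) - a n (T v) = (-(n : ℚ)) • a (n - 1) v

/-- Creation property with respect to the vector `o`. -/
def Cre (o : V) (a : ℤ → Module.End ℚ V) : Prop := ∀ n : ℤ, 0 ≤ n → a n o = 0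

/-- The identity field. -/
def idf : ℤ → Module.End ℚ V := fun n => if n = -1 then LinearMap.id else 0

end fields

/-- finitely many non-zero terms -/
def S_FIN : Prop := ∀ (V : Type) [AddCommGroup V] [Module ℚ V] (a b : ℤ → Module.End ℚ V),
  a ∈ FL V → b ∈ FL V → ∀ (r p q : ℤ) (v : V), (Function.support (trm a b r p q v)).Finite

/-- Pascal -/
def S_PAS : Prop := ∀ (V : Type) [AddCommGroup V] [Module ℚ V] (a b : ℤ → Module.End ℚ V),
  a ∈ FL V → b ∈ FL V → ∀ (r p q : ℤ) (v : V),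
    RR a b r (p + 1) q v - RR a b r p (q + 1) v = RR a b (r + 1) p q v

/-- interpolation -/
def S_INT : Prop := ∀ (V : Type) [AddCommGroup V] [Module ℚ V] (a b : ℤ → Module.End ℚ V),
  a ∈ FL V → b ∈ FL V → Loc a b → ∀ (r p q : ℤ) (v : V),
    RR a b r p q v = ∑ᶠ j : ℕ, bc p j • RR a b (r + j) 0 (p + q - j) v

/-- products exist -/
def S_PRD : Prop := ∀ (V : Type) [AddCommGroup V] [Module ℚ V] (a b : ℤ → Module.End ℚ V),
  a ∈ FL V → b ∈ FL V → ∀ n : ℤ, ∃ c ∈ FL V, IsPrd n a b c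

/-- locality is symmetric -/
def S_SYM : Prop := ∀ (V : Type) [AddCommGroup V] [Module ℚ V] (a b : ℤ → Module.End ℚ V),
  a ∈ FL V → b ∈ FL V → Loc a b → Loc b a

/-- locality is linear; the identity field is a field, local to every field -/
def S_LAD : Prop := ∀ (V : Type) [AddCommGroup V] [Module ℚ V],
  (∀ a b c : ℤ → Module.End ℚ V, a ∈ FL V → b ∈ FL V → c ∈ FL V →
    Loc a c → Loc b c → Loc (a + b) c) ∧
  (∀ (k : ℚ) (a c : ℤ → Module.End ℚ V), a ∈ FL V → c ∈ FL V → Loc a c → Loc (k • a) c) ∧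
  (idf : ℤ → Module.End ℚ V) ∈ FL V ∧
  (∀ c : ℤ → Module.End ℚ V, c ∈ FL V → Loc idf c)

/-- Dong's lemma -/
def S_DONG : Prop := ∀ (V : Type) [AddCommGroup V] [Module ℚ V] (a b c d : ℤ → Module.End ℚ V),
  a ∈ FL V → b ∈ FL V → c ∈ FL V → d ∈ FL V → Loc a b → Loc a c → Loc b c →
  ∀ n : ℤ, IsPrd n a b d → Loc d c

/-- products of translation covariant fields -/
def S_COV : Prop := ∀ (V : Type) [AddCommGroup V] [Module ℚ V] (T : Module.End ℚ V)
  (a b c : ℤ → Module.End ℚ V), a ∈ FL V → b ∈ FL V → Cov T a → Cov T b →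
  ∀ n : ℤ, IsPrd n a b c → Cov T c

/-- products and the vacuum -/
def S_CRE : Prop := ∀ (V : Type) [AddCommGroup V] [Module ℚ V] (o : V)
  (a b c : ℤ → Module.End ℚ V), a ∈ FL V → b ∈ FL V → Cre o a → Cre o b →
  ∀ n : ℤ, IsPrd n a b c → Cre o c ∧ c (-1) o = a n (b (-1) o)

/-- Goddard uniqueness -/
def S_GOD : Prop := ∀ (V : Type) [AddCommGroup V] [Module ℚ V] (T : Module.End ℚ V) (o : V)
  (a b : ℤ → Module.End ℚ V), a ∈ FL V → b ∈ FL V → Loc a b → Cre o a → Cre o b → Cov T a →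
  T o = 0 → a (-1) o = 0 → ∀ n : ℤ, a n (b (-1) o) = 0

/-- the reconstruction theorem -/
def S_REC : Prop := ∀ (V : Type) [AddCommGroup V] [Module ℚ V] (T : Module.End ℚ V) (o : V)
  (G : Set (ℤ → Module.End ℚ V)), T o = 0 →
  (∀ a ∈ G, a ∈ FL V ∧ Cov T a ∧ Cre o a) →
  (∀ a ∈ G, ∀ b ∈ G, Loc a b) →
  (∀ S : Submodule ℚ V, o ∈ S → (∀ a ∈ G, ∀ (n : ℤ) (v : V), v ∈ S → a n v ∈ S) → S = ⊤) →
  ∃ A : VertexAlgebra V, A.one = o ∧ (∀ a ∈ G, A.Y (a (-1) o) = a) ∧
    ∀ (x : V) (n : ℤ), A.Y (T x) n = (-(n : ℚ)) • A.Y x (n - 1)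


end Pool.Agent.V1112.HV
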