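import Mathlib
import Pool.Agent.V1112.HV.Stm

/-! VO-INT: interpolation. -/

set_option autoImplicit false

namespace Pool.Agent.V1112.HVW933

open Pool.Agent.V1112.HV

variable {V : Type} [AddCommGroup V] [Module ℚ V]

theorem bc_zero (p : ℤ) : bc p 0 = 1 := by
  unfold bc
  rw [Ring.choose_zero_right]
  simp

theorem bc_zero_succ (j : ℕ) : bc 0 (j + 1) = 0 := by
  unfold bc
  rw [Ring.choose_zero_succ]
  simp

theorem bc_succ (p : ℤ) (j : ℕ) : bc (p + 1) (j + 1) = bc p (j + 1) + bc p j := by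
  unfold bc
  rw [Ring.choose_succ_succ]
  push_cast
  ring

/-- the right hand side -/
noncomputable def SS (G : ℤ → ℤ → ℤ → V) (r p q : ℤ) : V :=
  ∑ᶠ j : ℕ, bc p j • G (r + j) 0 (p + q - j)

theorem SS_eq (G : ℤ → ℤ → ℤ → V) (N : ℤ) (hN : ∀ r, N ≤ r → ∀ p q, G r p q = 0) (r p q : ℤ)
    (K : ℕ) (hK : N ≤ r + K) : SS G r p q = ∑ j ∈ Finset.range K, bc p j • G (r + j) 0 (p + q - j) := by
  unfold SS
  apply finsum_eq_sum_of_support_subset
  intro j hj
  rw [Function.mem_support] at hj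
  rw [Finset.coe_range, Set.mem_Iio]
  by_contra hcon
  push Not at hcon
  apply hj
  have : (K : ℤ) ≤ j := by exact_mod_cast hcon
  rw [hN _ (by linarith), smul_zero]

theorem SS_rec (G : ℤ → ℤ → ℤ → V) (N : ℤ) (hN : ∀ r, N ≤ r → ∀ p q, G r p q = 0) (r p q : ℤ) :
    SS G r (p + 1) q = SS G r p (q + 1) + SS G (r + 1) p q := by
  obtain ⟨K, hK⟩ : ∃ K : ℕ, N ≤ r + K := ⟨(N - r).toNat, by
    have := Int.self_le_toNat (N - r)
    linarith⟩
  have hK1 : N ≤ r + ((K + 1 : ℕ) : ℤ) := by push_cast; linarith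
  have hK2 : N ≤ (r + 1) + (K : ℤ) := by linarith
  rw [SS_eq G N hN r (p + 1) q (K + 1) hK1, SS_eq G N hN r p (q + 1) (K + 1) hK1,
    SS_eq G N hN (r + 1) p q K hK2, Finset.sum_range_succ', Finset.sum_range_succ' _ K]
  have e1 : ∀ j ∈ Finset.range K, bc (p + 1) (j + 1) • G (r + ((j + 1 : ℕ) : ℤ)) 0
      (p + 1 + q - ((j + 1 : ℕ) : ℤ)) =
      bc p (j + 1) • G (r + ((j + 1 : ℕ) : ℤ)) 0 (p + (q + 1) - ((j + 1 : ℕ) : ℤ)) +
      bc p j • G (r + 1 + j) 0 (p + q - j) := by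
    intro j _
    have a1 : p + 1 + q - ((j + 1 : ℕ) : ℤ) = p + (q + 1) - ((j + 1 : ℕ) : ℤ) := by ring
    have a2 : r + 1 + (j : ℤ) = r + ((j + 1 : ℕ) : ℤ) := by push_cast; ring
    have a3 : p + q - (j : ℤ) = p + (q + 1) - ((j + 1 : ℕ) : ℤ) := by push_cast; ring
    rw [a1, a2, a3, bc_succ, add_smul]
  rw [Finset.sum_congr rfl e1, Finset.sum_add_distrib, bc_zero, bc_zero]
  have a4 : p + 1 + q - ((0 : ℕ) : ℤ) = p + (q + 1) - ((0 : ℕ) : ℤ) := by ring
  rw [a4]
  abel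

theorem SS_zero (G : ℤ → ℤ → ℤ → V) (r q : ℤ) : SS G r 0 q = G r 0 q := by
  unfold SS
  rw [finsum_eq_single _ 0]
  · rw [bc_zero, one_smul]
    simp
  · intro j hj
    obtain ⟨i, rfl⟩ := Nat.exists_eq_succ_of_ne_zero hj
    rw [Nat.succ_eq_add_one, bc_zero_succ, zero_smul]

theorem main_aux (G : ℤ → ℤ → ℤ → V)
    (hP : ∀ r p q : ℤ, G r (p + 1) q = G r p (q + 1) + G (r + 1) p q) (N : ℤ)
    (hN : ∀ r, N ≤ r → ∀ p q, G r p q = 0) :
    ∀ (K : ℕ) (r : ℤ), N ≤ r + K → ∀ p q, G r p q = SS G r p q := by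
  intro K
  induction K with
  | zero =>
    intro r hr p q
    rw [hN r (by simpa using hr), SS_eq G N hN r p q 0 hr]
    simp
  | succ K ih =>
    intro r hr
    have ih' := ih (r + 1) (by push_cast at hr; linarith)
    intro p
    induction p using Int.induction_on with
    | zero => intro q; exact (SS_zero G r q).symm
    | succ n hn =>
      intro q
      rw [hP, hn, ih', ← SS_rec G N hN]
    | pred n hn =>
      intro q
      have h1 := hP r (-(n : ℤ) - 1) (q - 1)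
      have h2 := SS_rec G N hN r (-(n : ℤ) - 1) (q - 1)
      rw [sub_add_cancel, sub_add_cancel] at h1 h2
      rw [hn, ih', h2] at h1
      exact (add_right_cancel h1).symm

theorem int (h : S_PAS) : S_INT := by
  intro V _ _ a b ha hb hloc r p q v
  obtain ⟨N, hN⟩ := hloc
  have hP : ∀ r p q : ℤ, RR a b r (p + 1) q v = RR a b r p (q + 1) v + RR a b (r + 1) p q v := by
    intro r p q
    rw [← h V a b ha hb r p q v]
    abel
  have hN' : ∀ r : ℤ, (N : ℤ) ≤ r → ∀ p q, RR a b r p q v = 0 := by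
    intro r hr
    induction r, hr using Int.le_induction with
    | base => intro p q; exact hN p q v
    | succ r _ ih =>
      intro p q
      have := hP r p q
      rw [ih, ih, zero_add] at this
      exact this.symm
  obtain ⟨K, hK⟩ : ∃ K : ℕ, (N : ℤ) ≤ r + K := ⟨((N : ℤ) - r).toNat, by
    have := Int.self_le_toNat ((N : ℤ) - r)
    linarith⟩
  exact main_aux (fun r p q => RR a b r p q v) hP N hN' K r hK p q

end Pool.Agent.V1112.HVW933
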