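import Pool.Agent.V1112.HV.Stm

/-!
# VO-SYM: locality is symmetric
-/

set_option autoImplicit false

namespace Pool.Agent.V1112.HVW395

open Pool.Agent.V1112.HV

lemma sgn_sq (r : ℤ) : ((-1 : ℚ) ^ r) * ((-1 : ℚ) ^ r) = 1 := by
  rw [← mul_zpow]
  norm_num

lemma trm_swap {V : Type} [AddCommGroup V] [Module ℚ V] (a b : ℤ → Module.End ℚ V) (r p q : ℤ)
    (v : V) (i : ℕ) : trm b a r q p v i = (-((-1 : ℚ) ^ r)) • trm a b r p q v i := by
  unfold trm
  have h := sgn_sq r
  generalize (-1 : ℚ) ^ r = s at h ⊢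
  generalize (-1 : ℚ) ^ i * bc r i = c
  generalize a (p + r - i) (b (q + i) v) = x
  generalize b (q + r - i) (a (p + i) v) = y
  have h2 : (-s) • c • (x - s • y) = c • ((s * s) • y - s • x) := by
    module
  rw [h2, h, one_smul]

lemma RR_swap {V : Type} [AddCommGroup V] [Module ℚ V] (a b : ℤ → Module.End ℚ V) (r p q : ℤ)
    (v : V) : RR b a r q p v = (-((-1 : ℚ) ^ r)) • RR a b r p q v := by
  unfold RR
  rw [smul_finsum]
  exact finsum_congr fun i => trm_swap a b r p q v i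

theorem sym : S_SYM := by
  intro V _ _ a b _ _ h
  obtain ⟨N, hN⟩ := h
  refine ⟨N, fun p q v => ?_⟩
  rw [RR_swap a b (N : ℤ) q p v, hN, smul_zero]

end Pool.Agent.V1112.HVW395
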