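import Mathlib

/-!
Vertex operator algebras over the rational numbers in component form.
-/

namespace Pool.Agent.V1112.HV

universe u

/-- The binomial coefficient `r (r-1) ... (r-i+1) / i!` of an integer `r`, as a rational number. -/
noncomputable def bc (r : ℤ) (i : ℕ) : ℚ := ((Ring.choose r i : ℤ) : ℚ)

/-- The Borcherds (Jacobi) identity in components, for operators `Y a n` (the mode `a_n`) of a
space `V` on itself and operators `YM a n` on a space `M`. All the sums below have only finitely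
many non-zero terms as soon as the truncation conditions hold. -/
def BorcherdsId {V : Type} {M : Type u} [AddCommGroup V] [Module ℚ V] [AddCommGroup M] [Module ℚ M]
    (Y : V →ₗ[ℚ] (ℤ → Module.End ℚ V)) (YM : V →ₗ[ℚ] (ℤ → Module.End ℚ M)) : Prop :=
  ∀ (a b : V) (w : M) (l m n : ℤ),
    ∑ᶠ i : ℕ, bc l i • YM (Y a (n + i) b) (l + m - i) w =
    ∑ᶠ i : ℕ, ((-1 : ℚ) ^ i * bc n i) •
      (YM a (l + n - i) (YM b (m + i) w) - (-1 : ℚ) ^ n • YM b (m + n - i) (YM a (l + i) w))

/-- Vertex algebras: `Y a n` is the mode `a_n`, i.e. `Y(a,z) = sum_n a_n z^(-n-1)`. -/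
structure VertexAlgebra (V : Type) [AddCommGroup V] [Module ℚ V] where
  Y : V →ₗ[ℚ] (ℤ → Module.End ℚ V)
  one : V
  trunc : ∀ a v : V, ∃ N : ℤ, ∀ n, N ≤ n → Y a n v = 0
  one_left : ∀ (n : ℤ) (v : V), Y one n v = if n = -1 then v else 0
  one_right : ∀ a : V, Y a (-1) one = a
  one_right' : ∀ (a : V) (n : ℤ), 0 ≤ n → Y a n one = 0
  borcherds : BorcherdsId Y Y

/-- Vertex operator algebras: a vertex algebra with a conformal vector `omega`, whose modes
`L(n) = omega_(n+1)` satisfy the Virasoro relations with central charge `c`, `L(-1)` is the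
translation operator, `V` is the direct sum of the eigenspaces `V_n` of `L(0)` with integer
eigenvalues `n`, all `V_n` are finite dimensional and `V_n = 0` for `n` sufficiently small. -/
structure VOA (V : Type) [AddCommGroup V] [Module ℚ V] extends VertexAlgebra V where
  omega : V
  c : ℚ
  virasoro : ∀ (m n : ℤ) (v : V),
    Y omega (m + 1) (Y omega (n + 1) v) - Y omega (n + 1) (Y omega (m + 1) v) =
      ((m : ℚ) - n) • Y omega (m + n + 1) v +
      (if m + n = 0 then ((m : ℚ) ^ 3 - m) / 12 * c else 0) • v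
  deriv : ∀ (a : V) (n : ℤ), Y (Y omega 0 a) n = (-(n : ℚ)) • Y a (n - 1)
  internal : DirectSum.IsInternal
    (fun n : ℤ => LinearMap.ker (Y omega 1 - (n : ℚ) • (LinearMap.id : V →ₗ[ℚ] V)))
  finite : ∀ n : ℤ, FiniteDimensional ℚ
    (LinearMap.ker (Y omega 1 - (n : ℚ) • (LinearMap.id : V →ₗ[ℚ] V)))
  bounded : ∃ N : ℤ, ∀ n < N,
    LinearMap.ker (Y omega 1 - (n : ℚ) • (LinearMap.id : V →ₗ[ℚ] V)) = ⊥

namespace VOA

variable {V : Type} [AddCommGroup V] [Module ℚ V]

/-- `V_n`, the eigenspace of `L(0)` for the eigenvalue `n`. -/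
def wt (A : VOA V) (n : ℤ) : Submodule ℚ V :=
  LinearMap.ker (A.Y A.omega 1 - (n : ℚ) • (LinearMap.id : V →ₗ[ℚ] V))

end VOA

end Pool.Agent.V1112.HV
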